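import Mathlib

set_option autoImplicit false

open Set MeasureTheory Filter Topology Uniformity

namespace Pool.Agent.Results.MP_ee4cf4_an.Proof

variable {X : Type*} [NormedAddCommGroup X] [NormedSpace ℝ X]

def Adm (J : Set ℝ) : Prop := (∃ a, J = Ici a) ∨ (∃ a, J = Ioi a) ∨ J = univ

def BUC (J : Set ℝ) (f : ℝ → X) : Prop :=
  (∃ C : ℝ, ∀ t ∈ J, ‖f t‖ ≤ C) ∧ UniformContinuousOn f J

def Acos (J : Set ℝ) (g : ℝ → X) : Prop :=
  ∃ u v : ℝ → X, BUC J u ∧ BUC J v ∧ ∀ t ∈ J, g t = u t + Real.cos (t ^ 2) • v t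

def L1loc (J : Set ℝ) (f : ℝ → X) : Prop := ∀ a ∈ J, ∀ b ∈ J, IntegrableOn f (Icc a b)

def Linf (J : Set ℝ) (f : ℝ → X) : Prop :=
  AEStronglyMeasurable f (volume.restrict J) ∧ ∃ C : ℝ, ∀ t ∈ J, ‖f t‖ ≤ C

def Up (J : Set ℝ) : Prop := ∀ t ∈ J, ∀ s, t ≤ s → s ∈ J

omit [NormedSpace ℝ X] in
theorem uc_iff {J : Set ℝ} {f : ℝ → X} : UniformContinuousOn f J ↔
    ∀ ε > 0, ∃ δ > 0, ∀ s ∈ J, ∀ t ∈ J, |s - t| < δ → ‖f s - f t‖ < ε := by
  simp only [Metric.uniformContinuousOn_iff, Real.dist_eq, dist_eq_norm, Real.norm_eq_abs]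

omit [NormedSpace ℝ X] in
theorem BUC.congr {J : Set ℝ} {f g : ℝ → X} (h : BUC J f) (e : ∀ t ∈ J, g t = f t) :
    BUC J g := by
  obtain ⟨⟨C, hC⟩, hu⟩ := h
  refine ⟨⟨C, fun t ht => (e t ht).symm ▸ hC t ht⟩, uc_iff.2 fun ε hε => ?_⟩
  obtain ⟨δ, hδ, h⟩ := uc_iff.1 hu ε hε
  exact ⟨δ, hδ, fun s hs t ht hst => by rw [e s hs, e t ht]; exact h s hs t ht hst⟩

omit [NormedSpace ℝ X] in
theorem BUC.add {J : Set ℝ} {f g : ℝ → X} (h : BUC J f) (h' : BUC J g) :
    BUC J fun t => f t + g t := by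
  obtain ⟨⟨C, hC⟩, hu⟩ := h
  obtain ⟨⟨C', hC'⟩, hu'⟩ := h'
  refine ⟨⟨C + C', fun t ht => norm_add_le_of_le (hC t ht) (hC' t ht)⟩,
    uc_iff.2 fun ε hε => ?_⟩
  obtain ⟨δ, hδ, h⟩ := uc_iff.1 hu (ε / 2) (by positivity)
  obtain ⟨η, hη, h'⟩ := uc_iff.1 hu' (ε / 2) (by positivity)
  refine ⟨min δ η, lt_min hδ hη, fun s hs t ht hst => ?_⟩
  rw [lt_min_iff] at hst
  rw [show f s + g s - (f t + g t) = (f s - f t) + (g s - g t) by abel]
  linarith [norm_add_le_of_le (h s hs t ht hst.1).le (h' s hs t ht hst.2).le, h s hs t ht hst.1,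
    norm_add_le (f s - f t) (g s - g t), h' s hs t ht hst.2]

omit [NormedSpace ℝ X] in
theorem BUC.sub {J : Set ℝ} {f g : ℝ → X} (h : BUC J f) (h' : BUC J g) :
    BUC J fun t => f t - g t := by
  obtain ⟨⟨C, hC⟩, hu⟩ := h
  obtain ⟨⟨C', hC'⟩, hu'⟩ := h'
  refine ⟨⟨C + C', fun t ht => norm_sub_le_of_le (hC t ht) (hC' t ht)⟩,
    uc_iff.2 fun ε hε => ?_⟩
  obtain ⟨δ, hδ, h⟩ := uc_iff.1 hu (ε / 2) (by positivity)
  obtain ⟨η, hη, h'⟩ := uc_iff.1 hu' (ε / 2) (by positivity)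
  refine ⟨min δ η, lt_min hδ hη, fun s hs t ht hst => ?_⟩
  rw [lt_min_iff] at hst
  rw [show f s - g s - (f t - g t) = (f s - f t) - (g s - g t) by abel]
  linarith [norm_sub_le_of_le (h s hs t ht hst.1).le (h' s hs t ht hst.2).le, h s hs t ht hst.1,
    norm_sub_le (f s - f t) (g s - g t), h' s hs t ht hst.2]

omit [NormedSpace ℝ X] in
theorem BUC.shift {J : Set ℝ} (hJ : Up J) {f : ℝ → X} (h : BUC J f) {b : ℝ} (hb : 0 ≤ b) :
    BUC J fun t => f (t + b) := by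
  obtain ⟨⟨C, hC⟩, hu⟩ := h
  refine ⟨⟨C, fun t ht => hC _ (hJ t ht _ (by linarith))⟩, uc_iff.2 fun ε hε => ?_⟩
  obtain ⟨δ, hδ, h⟩ := uc_iff.1 hu ε hε
  exact ⟨δ, hδ, fun s hs t ht hst => h _ (hJ s hs _ (by linarith)) _ (hJ t ht _ (by linarith))
    (by rwa [add_sub_add_right_eq_sub])⟩

theorem smul_est {a b C L : ℝ} {x y : X} (ha : |a| ≤ 1) (hy : ‖y‖ ≤ C) (hab : |a - b| ≤ L) :
    ‖a • x - b • y‖ ≤ ‖x - y‖ + L * C := by
  have e : a • x - b • y = a • (x - y) + (a - b) • y := by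
    rw [smul_sub, sub_smul]; abel
  rw [e]
  refine norm_add_le_of_le ?_ ?_
  · rw [norm_smul, Real.norm_eq_abs]
    exact mul_le_of_le_one_left (norm_nonneg _) ha
  · rw [norm_smul, Real.norm_eq_abs]
    exact mul_le_mul hab hy (norm_nonneg _) ((abs_nonneg _).trans hab)

theorem small {ε K : ℝ} (hε : 0 < ε) (hK : 0 ≤ K) : ∃ δ > 0, ∀ x, x < δ → K * x ≤ ε :=
  ⟨ε / (K + 1), by positivity, fun x hx => by
    rw [lt_div_iff₀ (by positivity)] at hx
    by_cases h : 0 ≤ x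
    · nlinarith
    · nlinarith⟩

theorem BUC.lip_smul {J : Set ℝ} {v : ℝ → X} (h : BUC J v) {c : ℝ → ℝ} {L : ℝ} (hL : 0 ≤ L)
    (h1 : ∀ t, |c t| ≤ 1) (h2 : ∀ s t, |c s - c t| ≤ L * |s - t|) :
    BUC J fun t => c t • v t := by
  obtain ⟨⟨C, hC⟩, hu⟩ := h
  refine ⟨⟨C, fun t ht => ?_⟩, uc_iff.2 fun ε hε => ?_⟩
  · rw [norm_smul, Real.norm_eq_abs]
    exact (mul_le_of_le_one_left (norm_nonneg _) (h1 t)).trans (hC t ht)
  obtain ⟨δ, hδ, h⟩ := uc_iff.1 hu (ε / 2) (by positivity)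
  obtain ⟨η, hη, h'⟩ := small (ε := ε / 2) (K := L * |C|) (by positivity) (by positivity)
  refine ⟨min δ η, lt_min hδ hη, fun s hs t ht hst => ?_⟩
  have k1 := h s hs t ht (hst.trans_le (min_le_left _ _))
  have k2 := h' _ (hst.trans_le (min_le_right _ _))
  have k3 := smul_est (x := v s) (h1 s) ((hC t ht).trans (le_abs_self C)) (h2 s t)
  nlinarith

theorem phase {θ : ℝ → ℝ} (hθ : Continuous θ) {t δ : ℝ} (hδ : 0 ≤ δ)
    (h : 2 * Real.pi ≤ |θ (t + δ) - θ t|) (φ : ℝ) :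
    ∃ s, t ≤ s ∧ s ≤ t + δ ∧ Real.sin (θ s) = Real.sin φ ∧ Real.cos (θ s) = Real.cos φ := by
  have hp : 0 < 2 * Real.pi := by positivity
  set lo := min (θ t) (θ (t + δ)) with hlo
  have h1 := Int.le_ceil ((lo - φ) / (2 * Real.pi))
  have h2 := Int.ceil_lt_add_one ((lo - φ) / (2 * Real.pi))
  set k := ⌈(lo - φ) / (2 * Real.pi)⌉
  rw [div_le_iff₀ hp] at h1
  rw [← sub_lt_iff_lt_add, lt_div_iff₀ hp] at h2
  have h3 : φ + k * (2 * Real.pi) ∈ uIcc (θ t) (θ (t + δ)) := by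
    refine ⟨by change lo ≤ _; linarith, ?_⟩
    change _ ≤ max (θ t) (θ (t + δ))
    have := max_sub_min_eq_abs (θ t) (θ (t + δ))
    linarith
  obtain ⟨s, hs, e⟩ := intermediate_value_uIcc hθ.continuousOn h3
  rw [uIcc_of_le (by linarith)] at hs
  exact ⟨s, hs.1, hs.2, by rw [e, Real.sin_add_int_mul_two_pi],
    by rw [e, Real.cos_add_int_mul_two_pi]⟩

def Van (J : Set ℝ) (v : ℝ → X) : Prop := ∀ ε > 0, ∃ T : ℝ, ∀ t ∈ J, T ≤ |t| → ‖v t‖ ≤ ε

theorem van_of_rel {J : Set ℝ} (hJ : Up J) {P Q R : ℝ → X} (hP : BUC J P) (hR : BUC J R)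
    (h : ∀ t ∈ J, P t + Real.cos (t ^ 2) • Q t + Real.sin (t ^ 2) • R t = 0) : Van J R := by
  intro ε hε
  obtain ⟨δ1, hδ1, h1⟩ := uc_iff.1 hP.2 (ε / 2) (by positivity)
  obtain ⟨δ2, hδ2, h2⟩ := uc_iff.1 hR.2 (ε / 2) (by positivity)
  set δ := min δ1 δ2 / 2 with hδ
  have hm : 0 < min δ1 δ2 := lt_min hδ1 hδ2
  have d0 : 0 < δ := by positivity
  have d1 : δ < δ1 := by linarith [min_le_left δ1 δ2]
  have d2 : δ < δ2 := by linarith [min_le_right δ1 δ2]
  refine ⟨Real.pi / δ + δ, fun t ht hT => ?_⟩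
  have hw : 2 * Real.pi ≤ |(t + δ) ^ 2 - t ^ 2| := by
    rw [show (t + δ) ^ 2 - t ^ 2 = δ * (2 * t + δ) by ring, abs_mul, abs_of_pos d0]
    have k1 : 2 * |t| - δ ≤ |2 * t + δ| := by
      rcases abs_cases t with k | k <;> rcases abs_cases (2 * t + δ) with l | l <;> linarith
    have k2 : δ * (Real.pi / δ) = Real.pi := by field_simp
    nlinarith
  obtain ⟨s1, a1, b1, c1, e1⟩ := phase (θ := fun s => s ^ 2) (by fun_prop) d0.le hw (Real.pi / 2)
  obtain ⟨s2, a2, b2, c2, e2⟩ := phase (θ := fun s => s ^ 2) (by fun_prop) d0.le hw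
    (-(Real.pi / 2))
  simp only [Real.sin_pi_div_two, Real.cos_pi_div_two, Real.sin_neg, Real.cos_neg] at c1 e1 c2 e2
  have m1 := hJ t ht s1 a1
  have m2 := hJ t ht s2 a2
  have r1 := h s1 m1
  have r2 := h s2 m2
  rw [c1, e1, zero_smul, one_smul, add_zero] at r1
  rw [c2, e2, zero_smul, neg_one_smul, add_zero] at r2
  have k1 := h1 s2 m2 s1 m1 (by rw [abs_lt]; constructor <;> linarith)
  have k2 := h2 t ht s1 m1 (by rw [abs_lt]; constructor <;> linarith)
  have k3 := h2 t ht s2 m2 (by rw [abs_lt]; constructor <;> linarith)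
  have e : (2 : ℝ) • R t = (R t - R s1) + (R t - R s2) + (P s2 - P s1) := by
    rw [two_smul, eq_neg_of_add_eq_zero_left r1, add_neg_eq_zero.1 r2]; abel
  have k4 : ‖(2 : ℝ) • R t‖ ≤ ε / 2 + ε / 2 + ε / 2 := by
    rw [e]; exact norm_add_le_of_le (norm_add_le_of_le k2.le k3.le) k1.le
  rw [norm_smul, Real.norm_two] at k4
  linarith

theorem buc_cos {J : Set ℝ} {v : ℝ → X} (h : BUC J v) (hv : Van J v) :
    BUC J fun t => Real.cos (t ^ 2) • v t := by
  obtain ⟨⟨C, hC⟩, hu⟩ := h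
  have hb : ∀ t, ‖Real.cos (t ^ 2) • v t‖ ≤ ‖v t‖ := fun t => by
    rw [norm_smul, Real.norm_eq_abs]
    exact mul_le_of_le_one_left (norm_nonneg _) (Real.abs_cos_le_one _)
  refine ⟨⟨C, fun t ht => (hb t).trans (hC t ht)⟩, uc_iff.2 fun ε hε => ?_⟩
  obtain ⟨T, hT⟩ := hv (ε / 3) (by positivity)
  obtain ⟨δ, hδ, h⟩ := uc_iff.1 hu (ε / 2) (by positivity)
  obtain ⟨η, hη, h'⟩ := small (ε := ε / 2) (K := (2 * |T| + 3) * |C|) (by positivity)
    (by positivity)
  refine ⟨min 1 (min δ η), lt_min one_pos (lt_min hδ hη), fun s hs t ht hst => ?_⟩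
  simp only [lt_min_iff] at hst
  have k0 := abs_sub_abs_le_abs_sub t s
  have k0' := abs_sub_abs_le_abs_sub s t
  rw [abs_sub_comm] at k0
  have hT' := le_abs_self T
  by_cases hc : |T| + 1 ≤ |t|
  · have k1 := (hb s).trans (hT s hs (by linarith [hst.1]))
    have k2 := (hb t).trans (hT t ht (by linarith))
    linarith [norm_sub_le_of_le k1 k2]
  · have k1 := h s hs t ht hst.2.1
    have k2 := h' _ hst.2.2
    have k3 : |Real.cos (s ^ 2) - Real.cos (t ^ 2)| ≤ (2 * |T| + 3) * |s - t| := by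
      refine (Real.abs_cos_sub_cos_le _ _).trans ?_
      rw [show s ^ 2 - t ^ 2 = (s + t) * (s - t) by ring, abs_mul]
      refine mul_le_mul_of_nonneg_right ((abs_add_le _ _).trans ?_) (abs_nonneg _)
      linarith [hst.1]
    have k4 := smul_est (x := v s) (Real.abs_cos_le_one (s ^ 2))
      ((hC t ht).trans (le_abs_self C)) k3
    nlinarith

theorem diff_buc {J : Set ℝ} (hJ : Up J) (hJ' : ∀ b, 0 < b → ∃ T : ℝ, ∀ t ∈ J, T ≤ |t| → t - b ∈ J)
    {f : ℝ → X} (h : ∀ a > 0, Acos J fun t => f (t + a) - f t) {a : ℝ} (ha : 0 < a) :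
    BUC J fun t => f (t + a) - f t := by
  obtain ⟨u, v, hu, hv, e⟩ := h a ha
  have hR : ∀ b > 0, Van J fun t => (-Real.sin (2 * b * t + b ^ 2)) • v (t + b) := by
    intro b hb
    obtain ⟨u1, v1, hu1, -, e1⟩ := h (a + b) (by linarith)
    obtain ⟨u2, v2, hu2, -, e2⟩ := h b hb
    refine van_of_rel hJ (((hu.shift hJ hb.le).sub hu1).add hu2)
      (Q := fun t => Real.cos (2 * b * t + b ^ 2) • v (t + b) - v1 t + v2 t)
      ((hv.shift hJ hb.le).lip_smul (L := 2 * b) (by positivity)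
        (fun t => by rw [abs_neg]; exact Real.abs_sin_le_one _) fun s t => ?_) fun t ht => ?_
    · rw [neg_sub_neg, abs_sub_comm]
      refine (Real.abs_sin_sub_sin_le _ _).trans_eq ?_
      rw [show 2 * b * s + b ^ 2 - (2 * b * t + b ^ 2) = 2 * b * (s - t) by ring, abs_mul,
        abs_of_pos (by positivity)]
    · have k1 := e (t + b) (hJ t ht _ (by linarith))
      have k2 := e1 t ht
      have k3 := e2 t ht
      beta_reduce at k1 k2 k3
      rw [show (t + b) ^ 2 = t ^ 2 + (2 * b * t + b ^ 2) by ring, Real.cos_add,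
        show t + b + a = t + (a + b) by ring] at k1
      linear_combination (norm := module) k2 - k1 - k3
  have hV : Van J v := by
    intro ε hε
    obtain ⟨δ, hδ, h1⟩ := uc_iff.1 hv.2 (ε / 2) (by positivity)
    set b := 2 * Real.pi / δ with hb
    have b0 : 0 < b := by have := Real.pi_pos; positivity
    obtain ⟨T, hT⟩ := hR b b0 (ε / 2) (by positivity)
    obtain ⟨T', hT'⟩ := hJ' b b0
    refine ⟨max T' (T + b + δ), fun t ht hm => ?_⟩
    rw [max_le_iff] at hm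
    have m0 := hT' t ht hm.1
    obtain ⟨s, a1, b1, c1, -⟩ := phase (θ := fun s => 2 * b * s + b ^ 2) (by fun_prop)
      (t := t - b) (δ := δ / 2) (by positivity) (by
        rw [show 2 * b * (t - b + δ / 2) + b ^ 2 - (2 * b * (t - b) + b ^ 2) = b * δ by ring,
          abs_of_pos (by positivity), hb]
        exact le_of_eq (by field_simp)) (Real.pi / 2)
    have m1 := hJ _ m0 s a1
    have k1 := hT s m1 (by
      have := abs_sub_abs_le_abs_sub t s
      have k : |t - s| ≤ b + δ := by rw [abs_le]; constructor <;> linarith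
      linarith [hm.2])
    beta_reduce at k1
    rw [c1, Real.sin_pi_div_two, neg_one_smul, norm_neg] at k1
    have k2 := h1 t ht (s + b) (hJ s m1 _ (by linarith)) (by rw [abs_lt]; constructor <;> linarith)
    linarith [norm_sub_norm_le (v t) (v (s + b))]
  exact (hu.add (buc_cos hv hV)).congr e

omit [NormedSpace ℝ X] in
theorem ii {J : Set ℝ} {f : ℝ → X} (hf : L1loc J f) {a b : ℝ} (ha : a ∈ J) (hb : b ∈ J) :
    IntervalIntegrable f volume a b := by
  rcases le_total a b with h | h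
  · exact (intervalIntegrable_iff_integrableOn_Icc_of_le h).2 (hf a ha b hb)
  · exact ((intervalIntegrable_iff_integrableOn_Icc_of_le h).2 (hf b hb a ha)).symm

omit [NormedSpace ℝ X] in
theorem ii' {J : Set ℝ} (hJ : Up J) {f : ℝ → X} (hf : L1loc J f) {t h : ℝ} (ht : t ∈ J)
    (hh : 0 ≤ h) : IntervalIntegrable (fun a => f (t + a) - f t) volume 0 h := by
  have := (ii hf ht (hJ t ht (t + h) (by linarith))).comp_add_left t
  rw [sub_self, add_sub_cancel_left] at this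
  exact this.sub intervalIntegrable_const

omit [NormedSpace ℝ X] in
theorem loc_bdd {J : Set ℝ} (hJ : Up J) {f : ℝ → X} (hf : L1loc J f)
    (h : ∀ a > 0, BUC J fun t => f (t + a) - f t) (H : ℝ) :
    ∃ M : ℝ, ∀ a, 0 < a → a ≤ H → ∀ t ∈ J, ‖f (t + a) - f t‖ ≤ M := by
  obtain ⟨D, hD, hc, hd⟩ := (TopologicalSpace.IsSeparable.of_separableSpace J).exists_countable_dense_subset
  set A : ℕ → Set ℝ := fun n => ⋂ q ∈ D, {a | ‖f (q + a) - f q‖ ≤ n} with hA
  have hU : Ioc (0 : ℝ) 1 ⊆ ⋃ n, A n := by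
    intro a ha
    obtain ⟨C, hC⟩ := (h a ha.1).1
    obtain ⟨n, hn⟩ := exists_nat_ge C
    exact mem_iUnion.2 ⟨n, mem_iInter₂.2 fun q hq => (hC q (hD hq)).trans hn⟩
  obtain ⟨n, hn⟩ : ∃ n, volume.restrict (Ioc (0 : ℝ) 1) (A n) ≠ 0 := by
    by_contra hc
    push Not at hc
    have := measure_mono_null hU (measure_iUnion_null hc)
    simp at this
  have hm : NullMeasurableSet (A n) (volume.restrict (Ioc (0 : ℝ) 1)) :=
    NullMeasurableSet.biInter hc fun q hq =>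
      nullMeasurableSet_le (ii' hJ hf (hD hq) zero_le_one).1.aestronglyMeasurable.norm.aemeasurable
        aemeasurable_const
  obtain ⟨E, hE, hEm, hEa⟩ := hm.exists_measurable_subset_ae_eq
  rw [← measure_congr hEa, Measure.restrict_apply hEm] at hn
  have hS := Measure.sub_mem_nhds_zero_of_addHaar_pos volume (E ∩ Ioc 0 1)
    (hEm.inter measurableSet_Ioc) (pos_iff_ne_zero.2 hn)
  obtain ⟨δ, hδ, hb⟩ := Metric.mem_nhds_iff.1 hS
  have k1 : ∀ a ∈ E ∩ Ioc 0 1, ∀ t ∈ J, ‖f (t + a) - f t‖ ≤ n := by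
    intro a ha t ht
    exact ContinuousWithinAt.closure_le (f := fun t => ‖f (t + a) - f t‖) (hd ht)
      (((h a ha.2.1).2.continuousOn t ht).mono hD).norm continuousWithinAt_const
      fun q hq => mem_iInter₂.1 (hE ha.1) q hq
  have k2 : ∀ c, 0 < c → c ≤ δ / 2 → ∀ t ∈ J, ‖f (t + c) - f t‖ ≤ 2 * n := by
    intro c c0 c1 t ht
    obtain ⟨a1, m1, a2, m2, e⟩ := hb (show c ∈ Metric.ball 0 δ by
      rw [mem_ball_zero_iff, Real.norm_eq_abs, abs_of_pos c0]; linarith)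
    have l1 := k1 a1 m1 t ht
    have l2 := k1 a2 m2 (t + c) (hJ t ht _ (by linarith))
    have e' : t + c + a2 = t + a1 := by rw [← e]; ring
    rw [e'] at l2
    have := norm_sub_le_of_le l1 l2
    rw [sub_sub_sub_cancel_left] at this
    linarith
  have k3 : ∀ k : ℕ, ∀ c, 0 < c → c ≤ k * (δ / 2) → ∀ t ∈ J, ‖f (t + c) - f t‖ ≤ k * (2 * n) := by
    intro k
    induction k with
    | zero => intro c c0 c1; simp at c1; linarith
    | succ k ih =>
      intro c c0 c1 t ht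
      push_cast at c1 ⊢
      have p0 : (0 : ℝ) ≤ k * (2 * n) := by positivity
      by_cases hc : c ≤ δ / 2
      · linarith [k2 c c0 hc t ht]
      · have l1 := k2 (δ / 2) (by positivity) le_rfl t ht
        have l2 := ih (c - δ / 2) (by linarith) (by linarith) (t + δ / 2) (hJ t ht _ (by linarith))
        rw [show t + δ / 2 + (c - δ / 2) = t + c by ring] at l2
        have := norm_add_le_of_le l2 l1
        rw [sub_add_sub_cancel] at this
        linarith
  obtain ⟨k, hk⟩ := exists_nat_ge (H / (δ / 2))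
  rw [div_le_iff₀ (by positivity)] at hk
  exact ⟨_, fun a a0 a1 => k3 k a a0 (a1.trans hk)⟩

theorem buc_delta [CompleteSpace X] {J : Set ℝ} (hJ : Up J) {f : ℝ → X} (hf : L1loc J f)
    (h : ∀ a > 0, BUC J fun t => f (t + a) - f t) {H : ℝ} (hH : 0 < H) :
    BUC J fun t => f t - H⁻¹ • ∫ s in t..t + H, f s := by
  obtain ⟨M, hM⟩ := loc_bdd hJ hf h H
  have hF : BUC J fun t => ∫ a in (0 : ℝ)..H, (f (t + a) - f t) := by
    refine ⟨⟨M * |H - 0|, fun t ht => intervalIntegral.norm_integral_le_of_norm_le_const ?_⟩, ?_⟩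
    · intro a ha
      rw [uIoc_of_le hH.le] at ha
      exact hM a ha.1 ha.2 t ht
    have hev : ∀ᶠ x : ℝ × ℝ in 𝓤 ℝ ⊓ 𝓟 (J ×ˢ J), x.1 ∈ J ∧ x.2 ∈ J :=
      mem_inf_of_right (mem_principal_self _)
    have key := intervalIntegral.tendsto_integral_filter_of_dominated_convergence
      (μ := volume) (a := 0) (b := H) (l := 𝓤 ℝ ⊓ 𝓟 (J ×ˢ J))
      (F := fun (x : ℝ × ℝ) a => (f (x.1 + a) - f x.1) - (f (x.2 + a) - f x.2))
      (f := fun _ => (0 : X)) (fun _ => M + M)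
      (hev.mono fun x hx => ((ii' hJ hf hx.1 hH.le).sub
        (ii' hJ hf hx.2 hH.le)).aestronglyMeasurable_restrict_uIoc)
      (hev.mono fun x hx => Eventually.of_forall fun a ha => by
        rw [uIoc_of_le hH.le] at ha
        exact norm_sub_le_of_le (hM a ha.1 ha.2 _ hx.1) (hM a ha.1 ha.2 _ hx.2))
      intervalIntegrable_const (Eventually.of_forall fun a ha => by
        rw [uIoc_of_le hH.le] at ha
        have := tendsto_uniformity_iff_dist_tendsto_zero.1 (h a ha.1).2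
        simp only [dist_eq_norm] at this
        exact tendsto_zero_iff_norm_tendsto_zero.2 this)
    refine tendsto_uniformity_iff_dist_tendsto_zero.2 ?_
    rw [intervalIntegral.integral_zero] at key
    refine (tendsto_zero_iff_norm_tendsto_zero.1 key).congr' (hev.mono fun x hx => ?_)
    simp only [dist_eq_norm]
    rw [intervalIntegral.integral_sub (ii' hJ hf hx.1 hH.le) (ii' hJ hf hx.2 hH.le)]
  obtain ⟨⟨C, hC⟩, hu⟩ := hF
  refine BUC.congr (f := fun t => (-H⁻¹) • ∫ a in (0 : ℝ)..H, (f (t + a) - f t))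
    ⟨⟨‖-H⁻¹‖ * C, fun t ht => by
      rw [norm_smul]; exact mul_le_mul_of_nonneg_left (hC t ht) (norm_nonneg _)⟩,
      (uniformContinuous_const_smul _).comp_uniformContinuousOn hu⟩ fun t ht => ?_
  have k1 := (ii hf ht (hJ t ht (t + H) (by linarith))).comp_add_left t
  rw [sub_self, add_sub_cancel_left] at k1
  rw [intervalIntegral.integral_sub k1 intervalIntegrable_const,
    intervalIntegral.integral_comp_add_left, intervalIntegral.integral_const, add_zero, sub_zero,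
    smul_sub, smul_smul, neg_mul, inv_mul_cancel₀ hH.ne', neg_smul, neg_smul, one_smul]
  abel

theorem acos_of_buc {J : Set ℝ} {g : ℝ → X} (h : BUC J g) : Acos J g :=
  ⟨g, fun _ => 0, h, ⟨⟨0, by simp⟩, uniformContinuous_const.uniformContinuousOn⟩, by simp⟩

theorem result [CompleteSpace X] (J : Set ℝ) (hJ : Adm J) :
    (∀ f : ℝ → X, L1loc J f → (∀ a > 0, Acos J fun t => f (t + a) - f t) →
      ∀ h > 0, Acos J fun t => f t - h⁻¹ • ∫ s in t..t + h, f s) ∧
    (∀ f : ℝ → X, Linf J f → (∀ a > 0, Acos J fun t => f (t + a) - f t) → Acos J f) := by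
  have hU : Up J := by
    rcases hJ with ⟨a, rfl⟩ | ⟨a, rfl⟩ | rfl
    · exact fun t ht s h => le_trans ht h
    · exact fun t ht s h => lt_of_lt_of_le ht h
    · exact fun _ _ _ _ => mem_univ _
  have hJ' : ∀ b, 0 < b → ∃ T : ℝ, ∀ t ∈ J, T ≤ |t| → t - b ∈ J := by
    intro b hb
    rcases hJ with ⟨a, rfl⟩ | ⟨a, rfl⟩ | rfl
    · refine ⟨|a| + b + 1, fun t ht hT => ?_⟩
      rw [mem_Ici] at ht ⊢
      rcases abs_cases t with k | k <;> rcases abs_cases a with l | l <;> linarith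
    · refine ⟨|a| + b + 1, fun t ht hT => ?_⟩
      rw [mem_Ioi] at ht ⊢
      rcases abs_cases t with k | k <;> rcases abs_cases a with l | l <;> linarith
    · exact ⟨0, fun _ _ _ => mem_univ _⟩
  refine ⟨fun f hf h H hH => acos_of_buc
    (buc_delta hU hf (fun a ha => diff_buc hU hJ' h ha) hH), fun f ⟨hm, C, hC⟩ h => ?_⟩
  have hf : L1loc J f := by
    intro a ha b _
    have hs : Icc a b ⊆ J := fun s hs => hU a ha s hs.1
    refine IntegrableOn.of_bound (by simp)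
      (hm.mono_measure (Measure.restrict_mono hs le_rfl)) C ?_
    exact (ae_restrict_iff' measurableSet_Icc).2 (Eventually.of_forall fun s h => hC s (hs h))
  have h1 := buc_delta hU hf (fun a ha => diff_buc hU hJ' h ha) one_pos
  have hb : ∀ a ∈ J, ∀ b ∈ J, ‖∫ s in a..b, f s‖ ≤ C * |b - a| := by
    intro a ha b hb
    refine intervalIntegral.norm_integral_le_of_norm_le_const fun s hs => hC s ?_
    rcases le_total a b with k | k
    · rw [uIoc_of_le k] at hs; exact hU a ha s hs.1.le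
    · rw [uIoc_of_ge k] at hs; exact hU b hb s hs.1.le
  have h2 : BUC J fun t => ∫ s in t..t + 1, f s := by
    refine ⟨⟨C * 1, fun t ht => by
      simpa using hb t ht (t + 1) (hU t ht _ (by linarith))⟩, uc_iff.2 fun ε hε => ?_⟩
    obtain ⟨η, hη, h'⟩ := small (ε := ε / 3) (K := |C|) (by positivity) (by positivity)
    refine ⟨η, hη, fun s hs t ht hst => ?_⟩
    have s1 := hU s hs (s + 1) (by linarith)
    have t1 := hU t ht (t + 1) (by linarith)
    rw [intervalIntegral.integral_interval_sub_interval_comm (ii hf hs s1) (ii hf ht t1)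
      (ii hf hs ht)]
    have l1 := hb s hs t ht
    have l2 := hb _ s1 _ t1
    rw [add_sub_add_right_eq_sub] at l2
    rw [abs_sub_comm] at l1 l2
    have l3 := h' _ hst
    have l4 := mul_le_mul_of_nonneg_right (le_abs_self C) (abs_nonneg (s - t))
    linarith [norm_sub_le_of_le l1 l2]
  exact acos_of_buc ((h1.add h2).congr fun t _ => by simp)

end Pool.Agent.Results.MP_ee4cf4_an.Proof
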